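import Mathlib

/-! Covariants of binary quartic forms: identities and bounds. -/

set_option autoImplicit false

namespace Pool.Agent.H454.HT

section
variable {R : Type} [CommRing R] (a b c d e p q : R)

/-- the quartic form -/
def Fq : R := a * p ^ 4 + b * p ^ 3 * q + c * p ^ 2 * q ^ 2 + d * p * q ^ 3 + e * q ^ 4

/-- the derivative with respect to `p` -/
def Fp : R := 4 * a * p ^ 3 + 3 * b * p ^ 2 * q + 2 * c * p * q ^ 2 + d * q ^ 3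

/-- the derivative with respect to `q` -/
def Fs : R := b * p ^ 3 + 2 * c * p ^ 2 * q + 3 * d * p * q ^ 2 + 4 * e * q ^ 3

/-- the second derivatives -/
def Fpp : R := 12 * a * p ^ 2 + 6 * b * p * q + 2 * c * q ^ 2

/-- the second derivatives -/
def Fss : R := 2 * c * p ^ 2 + 6 * d * p * q + 12 * e * q ^ 2

/-- the covariant of degree four -/
def g4 : R := (3 * b ^ 2 - 8 * a * c) * p ^ 4 + 4 * (b * c - 6 * a * d) * p ^ 3 * q +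
  2 * (2 * c ^ 2 - 24 * a * e - 3 * b * d) * p ^ 2 * q ^ 2 + 4 * (c * d - 6 * b * e) * p * q ^ 3 +
  (3 * d ^ 2 - 8 * c * e) * q ^ 4

/-- the covariant of degree six -/
def g6 : R := (b ^ 3 + 8 * a ^ 2 * d - 4 * a * b * c) * p ^ 6 +
  2 * (16 * a ^ 2 * e + 2 * a * b * d - 4 * a * c ^ 2 + b ^ 2 * c) * p ^ 5 * q +
  5 * (8 * a * b * e + b ^ 2 * d - 4 * a * c * d) * p ^ 4 * q ^ 2 +
  20 * (b ^ 2 * e - a * d ^ 2) * p ^ 3 * q ^ 3 -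
  5 * (8 * a * d * e + b * d ^ 2 - 4 * b * c * e) * p ^ 2 * q ^ 4 -
  2 * (16 * a * e ^ 2 + 2 * b * d * e - 4 * c ^ 2 * e + c * d ^ 2) * p * q ^ 5 -
  (d ^ 3 + 8 * b * e ^ 2 - 4 * c * d * e) * q ^ 6

/-- the invariant of degree two -/
def iI : R := 12 * a * e - 3 * b * d + c ^ 2

/-- the invariant of degree three -/
def iJ : R := 72 * a * c * e + 9 * b * c * d - 27 * a * d ^ 2 - 27 * b ^ 2 * e - 2 * c ^ 3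

/-- the discriminant -/
def dis : R := 256 * a ^ 3 * e ^ 3 - 192 * a ^ 2 * b * d * e ^ 2 - 128 * a ^ 2 * c ^ 2 * e ^ 2 +
  144 * a ^ 2 * c * d ^ 2 * e - 27 * a ^ 2 * d ^ 4 + 144 * a * b ^ 2 * c * e ^ 2 -
  6 * a * b ^ 2 * d ^ 2 * e - 80 * a * b * c ^ 2 * d * e + 18 * a * b * c * d ^ 3 +
  16 * a * c ^ 4 * e - 4 * a * c ^ 3 * d ^ 2 - 27 * b ^ 4 * e ^ 2 + 18 * b ^ 3 * c * d * e -
  4 * b ^ 3 * d ^ 3 - 4 * b ^ 2 * c ^ 3 * e + b ^ 2 * c ^ 2 * d ^ 2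

theorem dis_eq : 27 * dis a b c d e = 4 * iI a b c d e ^ 3 - iJ a b c d e ^ 2 := by
  unfold dis iI iJ
  ring

theorem syz : 27 * g6 a b c d e p q ^ 2 = g4 a b c d e p q ^ 3 -
    48 * Fq a b c d e p q ^ 2 * g4 a b c d e p q * iI a b c d e -
    64 * Fq a b c d e p q ^ 3 * iJ a b c d e := by
  unfold g6 g4 Fq iI iJ
  ring

theorem hess_q : q ^ 2 * g4 a b c d e p q = 3 * Fp a b c d p q ^ 2 -
    4 * Fq a b c d e p q * Fpp a b c p q := by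
  unfold g4 Fq Fp Fpp
  ring

theorem hess_p : p ^ 2 * g4 a b c d e p q = 3 * Fs b c d e p q ^ 2 -
    4 * Fq a b c d e p q * Fss c d e p q := by
  unfold g4 Fq Fs Fss
  ring

/-- a cofactor -/
def u0 : R := 1024 * a ^ 2 * e ^ 3 - 704 * a * b * d * e ^ 2 - 512 * a * c ^ 2 * e ^ 2 + 576 * a
  * c * d ^ 2 * e - 108 * a * d ^ 4 + 384 * b ^ 2 * c * e ^ 2 + 4 * b ^ 2 * d ^ 2 * e - 272 * b
  * c ^ 2 * d * e + 60 * b * c * d ^ 3 + 64 * c ^ 4 * e - 16 * c ^ 3 * d ^ 2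

/-- a cofactor -/
def u1 : R := -768 * a * b * e ^ 3 + 128 * a * c * d * e ^ 2 + 480 * b ^ 2 * d * e ^ 2 - 64 * b
  * c ^ 2 * e ^ 2 - 320 * b * c * d ^ 2 * e + 72 * b * d ^ 4 + 96 * c ^ 3 * d * e - 24 * c ^ 2 *
  d ^ 3

/-- a cofactor -/
def u2 : R := -512 * a * c * e ^ 3 + 192 * a * d ^ 2 * e ^ 2 + 576 * b ^ 2 * e ^ 3 - 448 * b * c
  * d * e ^ 2 + 96 * b * d ^ 3 * e + 128 * c ^ 3 * e ^ 2 - 32 * c ^ 2 * d ^ 2 * e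

/-- a cofactor -/
def u3 : R := -256 * a ^ 2 * d * e ^ 2 + 768 * a * b * c * e ^ 2 - 112 * a * b * d ^ 2 * e - 192
  * a * c ^ 2 * d * e + 48 * a * c * d ^ 3 - 432 * b ^ 3 * e ^ 2 + 288 * b ^ 2 * c * d * e - 64
  * b ^ 2 * d ^ 3 - 64 * b * c ^ 3 * e + 16 * b * c ^ 2 * d ^ 2

/-- a cofactor -/
def u4 : R := 192 * a * b * d * e ^ 2 + 256 * a * c ^ 2 * e ^ 2 - 224 * a * c * d ^ 2 * e + 36 *
  a * d ^ 4 - 288 * b ^ 2 * c * e ^ 2 - 12 * b ^ 2 * d ^ 2 * e + 240 * b * c ^ 2 * d * e - 52 *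
  b * c * d ^ 3 - 64 * c ^ 4 * e + 16 * c ^ 3 * d ^ 2

/-- a cofactor -/
def u5 : R := 128 * a * c * d * e ^ 2 - 48 * a * d ^ 3 * e - 144 * b ^ 2 * d * e ^ 2 + 112 * b *
  c * d ^ 2 * e - 24 * b * d ^ 4 - 32 * c ^ 3 * d * e + 8 * c ^ 2 * d ^ 3

/-- a cofactor -/
def v0 : R := 128 * a ^ 2 * b * c * e - 144 * a ^ 2 * b * d ^ 2 - 48 * a * b ^ 3 * e + 112 * a *
  b ^ 2 * c * d - 32 * a * b * c ^ 3 - 24 * b ^ 4 * d + 8 * b ^ 3 * c ^ 2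

/-- a cofactor -/
def v1 : R := 192 * a ^ 2 * b * d * e + 256 * a ^ 2 * c ^ 2 * e - 288 * a ^ 2 * c * d ^ 2 - 224
  * a * b ^ 2 * c * e - 12 * a * b ^ 2 * d ^ 2 + 240 * a * b * c ^ 2 * d - 64 * a * c ^ 4 + 36 *
  b ^ 4 * e - 52 * b ^ 3 * c * d + 16 * b ^ 2 * c ^ 3

/-- a cofactor -/
def v2 : R := -256 * a ^ 2 * b * e ^ 2 + 768 * a ^ 2 * c * d * e - 432 * a ^ 2 * d ^ 3 - 112 * a
  * b ^ 2 * d * e - 192 * a * b * c ^ 2 * e + 288 * a * b * c * d ^ 2 - 64 * a * c ^ 3 * d + 48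
  * b ^ 3 * c * e - 64 * b ^ 3 * d ^ 2 + 16 * b ^ 2 * c ^ 2 * d

/-- a cofactor -/
def v3 : R := -512 * a ^ 3 * c * e + 576 * a ^ 3 * d ^ 2 + 192 * a ^ 2 * b ^ 2 * e - 448 * a ^ 2
  * b * c * d + 128 * a ^ 2 * c ^ 3 + 96 * a * b ^ 3 * d - 32 * a * b ^ 2 * c ^ 2

/-- a cofactor -/
def v4 : R := -768 * a ^ 3 * d * e + 128 * a ^ 2 * b * c * e + 480 * a ^ 2 * b * d ^ 2 - 64 * a
  ^ 2 * c ^ 2 * d - 320 * a * b ^ 2 * c * d + 96 * a * b * c ^ 3 + 72 * b ^ 4 * d - 24 * b ^ 3 *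
  c ^ 2

/-- a cofactor -/
def v5 : R := 1024 * a ^ 3 * e ^ 2 - 704 * a ^ 2 * b * d * e - 512 * a ^ 2 * c ^ 2 * e + 384 * a
  ^ 2 * c * d ^ 2 + 576 * a * b ^ 2 * c * e + 4 * a * b ^ 2 * d ^ 2 - 272 * a * b * c ^ 2 * d +
  64 * a * c ^ 4 - 108 * b ^ 4 * e + 60 * b ^ 3 * c * d - 16 * b ^ 2 * c ^ 3

theorem elim_p : 16 * dis a b c d e * p ^ 5 =
    (u0 a b c d e * p ^ 2 + u1 a b c d e * (p * q) + u2 a b c d e * q ^ 2) * Fp a b c d p q +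
    (u3 a b c d e * p ^ 2 + u4 a b c d e * (p * q) + u5 a b c d e * q ^ 2) * Fs b c d e p q := by
  unfold dis u0 u1 u2 u3 u4 u5 Fp Fs
  ring

theorem elim_q : 16 * dis a b c d e * q ^ 5 =
    (v0 a b c d e * p ^ 2 + v1 a b c d e * (p * q) + v2 a b c d e * q ^ 2) * Fp a b c d p q +
    (v3 a b c d e * p ^ 2 + v4 a b c d e * (p * q) + v5 a b c d e * q ^ 2) * Fs b c d e p q := by
  unfold dis v0 v1 v2 v3 v4 v5 Fp Fs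
  ring

end

/-- products of five numbers -/
theorem m5 {x y z s t H : ℝ} (hx : |x| ≤ H) (hy : |y| ≤ H) (hz : |z| ≤ H) (hs : |s| ≤ H)
    (ht : |t| ≤ H) : |x * y * z * s * t| ≤ H ^ 5 := by
  have hH : 0 ≤ H := (abs_nonneg x).trans hx
  rw [abs_mul, abs_mul, abs_mul, abs_mul]
  have h1 : |x| * |y| ≤ H * H := mul_le_mul hx hy (abs_nonneg _) hH
  have h2 : |x| * |y| * |z| ≤ H * H * H := mul_le_mul h1 hz (abs_nonneg _) (by positivity)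
  have h3 : |x| * |y| * |z| * |s| ≤ H * H * H * H := mul_le_mul h2 hs (abs_nonneg _) (by positivity)
  have h4 : |x| * |y| * |z| * |s| * |t| ≤ H * H * H * H * H :=
    mul_le_mul h3 ht (abs_nonneg _) (by positivity)
  calc _ ≤ _ := h4
    _ = H ^ 5 := by ring

section
variable {a b c d e H : ℝ} (ha : |a| ≤ H) (hb : |b| ≤ H) (hc : |c| ≤ H) (hd : |d| ≤ H)
  (he : |e| ≤ H)
include ha hb hc hd he

theorem u0_le : |u0 a b c d e| ≤ 3724 * H ^ 5 := by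
  obtain ⟨l0, r0⟩ := abs_le.1 (m5 ha ha he he he)
  obtain ⟨l1, r1⟩ := abs_le.1 (m5 ha hb hd he he)
  obtain ⟨l2, r2⟩ := abs_le.1 (m5 ha hc hc he he)
  obtain ⟨l3, r3⟩ := abs_le.1 (m5 ha hc hd hd he)
  obtain ⟨l4, r4⟩ := abs_le.1 (m5 ha hd hd hd hd)
  obtain ⟨l5, r5⟩ := abs_le.1 (m5 hb hb hc he he)
  obtain ⟨l6, r6⟩ := abs_le.1 (m5 hb hb hd hd he)
  obtain ⟨l7, r7⟩ := abs_le.1 (m5 hb hc hc hd he)
  obtain ⟨l8, r8⟩ := abs_le.1 (m5 hb hc hd hd hd)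
  obtain ⟨l9, r9⟩ := abs_le.1 (m5 hc hc hc hc he)
  obtain ⟨l10, r10⟩ := abs_le.1 (m5 hc hc hc hd hd)
  unfold u0
  rw [abs_le]
  constructor <;> nlinarith

theorem u1_le : |u1 a b c d e| ≤ 1952 * H ^ 5 := by
  obtain ⟨l0, r0⟩ := abs_le.1 (m5 ha hb he he he)
  obtain ⟨l1, r1⟩ := abs_le.1 (m5 ha hc hd he he)
  obtain ⟨l2, r2⟩ := abs_le.1 (m5 hb hb hd he he)
  obtain ⟨l3, r3⟩ := abs_le.1 (m5 hb hc hc he he)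
  obtain ⟨l4, r4⟩ := abs_le.1 (m5 hb hc hd hd he)
  obtain ⟨l5, r5⟩ := abs_le.1 (m5 hb hd hd hd hd)
  obtain ⟨l6, r6⟩ := abs_le.1 (m5 hc hc hc hd he)
  obtain ⟨l7, r7⟩ := abs_le.1 (m5 hc hc hd hd hd)
  unfold u1
  rw [abs_le]
  constructor <;> nlinarith

theorem u2_le : |u2 a b c d e| ≤ 1984 * H ^ 5 := by
  obtain ⟨l0, r0⟩ := abs_le.1 (m5 ha hc he he he)
  obtain ⟨l1, r1⟩ := abs_le.1 (m5 ha hd hd he he)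
  obtain ⟨l2, r2⟩ := abs_le.1 (m5 hb hb he he he)
  obtain ⟨l3, r3⟩ := abs_le.1 (m5 hb hc hd he he)
  obtain ⟨l4, r4⟩ := abs_le.1 (m5 hb hd hd hd he)
  obtain ⟨l5, r5⟩ := abs_le.1 (m5 hc hc hc he he)
  obtain ⟨l6, r6⟩ := abs_le.1 (m5 hc hc hd hd he)
  unfold u2
  rw [abs_le]
  constructor <;> nlinarith

theorem u3_le : |u3 a b c d e| ≤ 2240 * H ^ 5 := by
  obtain ⟨l0, r0⟩ := abs_le.1 (m5 ha ha hd he he)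
  obtain ⟨l1, r1⟩ := abs_le.1 (m5 ha hb hc he he)
  obtain ⟨l2, r2⟩ := abs_le.1 (m5 ha hb hd hd he)
  obtain ⟨l3, r3⟩ := abs_le.1 (m5 ha hc hc hd he)
  obtain ⟨l4, r4⟩ := abs_le.1 (m5 ha hc hd hd hd)
  obtain ⟨l5, r5⟩ := abs_le.1 (m5 hb hb hb he he)
  obtain ⟨l6, r6⟩ := abs_le.1 (m5 hb hb hc hd he)
  obtain ⟨l7, r7⟩ := abs_le.1 (m5 hb hb hd hd hd)
  obtain ⟨l8, r8⟩ := abs_le.1 (m5 hb hc hc hc he)
  obtain ⟨l9, r9⟩ := abs_le.1 (m5 hb hc hc hd hd)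
  unfold u3
  rw [abs_le]
  constructor <;> nlinarith

theorem u4_le : |u4 a b c d e| ≤ 1380 * H ^ 5 := by
  obtain ⟨l0, r0⟩ := abs_le.1 (m5 ha hb hd he he)
  obtain ⟨l1, r1⟩ := abs_le.1 (m5 ha hc hc he he)
  obtain ⟨l2, r2⟩ := abs_le.1 (m5 ha hc hd hd he)
  obtain ⟨l3, r3⟩ := abs_le.1 (m5 ha hd hd hd hd)
  obtain ⟨l4, r4⟩ := abs_le.1 (m5 hb hb hc he he)
  obtain ⟨l5, r5⟩ := abs_le.1 (m5 hb hb hd hd he)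
  obtain ⟨l6, r6⟩ := abs_le.1 (m5 hb hc hc hd he)
  obtain ⟨l7, r7⟩ := abs_le.1 (m5 hb hc hd hd hd)
  obtain ⟨l8, r8⟩ := abs_le.1 (m5 hc hc hc hc he)
  obtain ⟨l9, r9⟩ := abs_le.1 (m5 hc hc hc hd hd)
  unfold u4
  rw [abs_le]
  constructor <;> nlinarith

theorem u5_le : |u5 a b c d e| ≤ 496 * H ^ 5 := by
  obtain ⟨l0, r0⟩ := abs_le.1 (m5 ha hc hd he he)
  obtain ⟨l1, r1⟩ := abs_le.1 (m5 ha hd hd hd he)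
  obtain ⟨l2, r2⟩ := abs_le.1 (m5 hb hb hd he he)
  obtain ⟨l3, r3⟩ := abs_le.1 (m5 hb hc hd hd he)
  obtain ⟨l4, r4⟩ := abs_le.1 (m5 hb hd hd hd hd)
  obtain ⟨l5, r5⟩ := abs_le.1 (m5 hc hc hc hd he)
  obtain ⟨l6, r6⟩ := abs_le.1 (m5 hc hc hd hd hd)
  unfold u5
  rw [abs_le]
  constructor <;> nlinarith

theorem v0_le : |v0 a b c d e| ≤ 496 * H ^ 5 := by
  obtain ⟨l0, r0⟩ := abs_le.1 (m5 ha ha hb hc he)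
  obtain ⟨l1, r1⟩ := abs_le.1 (m5 ha ha hb hd hd)
  obtain ⟨l2, r2⟩ := abs_le.1 (m5 ha hb hb hb he)
  obtain ⟨l3, r3⟩ := abs_le.1 (m5 ha hb hb hc hd)
  obtain ⟨l4, r4⟩ := abs_le.1 (m5 ha hb hc hc hc)
  obtain ⟨l5, r5⟩ := abs_le.1 (m5 hb hb hb hb hd)
  obtain ⟨l6, r6⟩ := abs_le.1 (m5 hb hb hb hc hc)
  unfold v0
  rw [abs_le]
  constructor <;> nlinarith

theorem v1_le : |v1 a b c d e| ≤ 1380 * H ^ 5 := by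
  obtain ⟨l0, r0⟩ := abs_le.1 (m5 ha ha hb hd he)
  obtain ⟨l1, r1⟩ := abs_le.1 (m5 ha ha hc hc he)
  obtain ⟨l2, r2⟩ := abs_le.1 (m5 ha ha hc hd hd)
  obtain ⟨l3, r3⟩ := abs_le.1 (m5 ha hb hb hc he)
  obtain ⟨l4, r4⟩ := abs_le.1 (m5 ha hb hb hd hd)
  obtain ⟨l5, r5⟩ := abs_le.1 (m5 ha hb hc hc hd)
  obtain ⟨l6, r6⟩ := abs_le.1 (m5 ha hc hc hc hc)
  obtain ⟨l7, r7⟩ := abs_le.1 (m5 hb hb hb hb he)
  obtain ⟨l8, r8⟩ := abs_le.1 (m5 hb hb hb hc hd)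
  obtain ⟨l9, r9⟩ := abs_le.1 (m5 hb hb hc hc hc)
  unfold v1
  rw [abs_le]
  constructor <;> nlinarith

theorem v2_le : |v2 a b c d e| ≤ 2240 * H ^ 5 := by
  obtain ⟨l0, r0⟩ := abs_le.1 (m5 ha ha hb he he)
  obtain ⟨l1, r1⟩ := abs_le.1 (m5 ha ha hc hd he)
  obtain ⟨l2, r2⟩ := abs_le.1 (m5 ha ha hd hd hd)
  obtain ⟨l3, r3⟩ := abs_le.1 (m5 ha hb hb hd he)
  obtain ⟨l4, r4⟩ := abs_le.1 (m5 ha hb hc hc he)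
  obtain ⟨l5, r5⟩ := abs_le.1 (m5 ha hb hc hd hd)
  obtain ⟨l6, r6⟩ := abs_le.1 (m5 ha hc hc hc hd)
  obtain ⟨l7, r7⟩ := abs_le.1 (m5 hb hb hb hc he)
  obtain ⟨l8, r8⟩ := abs_le.1 (m5 hb hb hb hd hd)
  obtain ⟨l9, r9⟩ := abs_le.1 (m5 hb hb hc hc hd)
  unfold v2
  rw [abs_le]
  constructor <;> nlinarith

theorem v3_le : |v3 a b c d e| ≤ 1984 * H ^ 5 := by
  obtain ⟨l0, r0⟩ := abs_le.1 (m5 ha ha ha hc he)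
  obtain ⟨l1, r1⟩ := abs_le.1 (m5 ha ha ha hd hd)
  obtain ⟨l2, r2⟩ := abs_le.1 (m5 ha ha hb hb he)
  obtain ⟨l3, r3⟩ := abs_le.1 (m5 ha ha hb hc hd)
  obtain ⟨l4, r4⟩ := abs_le.1 (m5 ha ha hc hc hc)
  obtain ⟨l5, r5⟩ := abs_le.1 (m5 ha hb hb hb hd)
  obtain ⟨l6, r6⟩ := abs_le.1 (m5 ha hb hb hc hc)
  unfold v3
  rw [abs_le]
  constructor <;> nlinarith

theorem v4_le : |v4 a b c d e| ≤ 1952 * H ^ 5 := by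
  obtain ⟨l0, r0⟩ := abs_le.1 (m5 ha ha ha hd he)
  obtain ⟨l1, r1⟩ := abs_le.1 (m5 ha ha hb hc he)
  obtain ⟨l2, r2⟩ := abs_le.1 (m5 ha ha hb hd hd)
  obtain ⟨l3, r3⟩ := abs_le.1 (m5 ha ha hc hc hd)
  obtain ⟨l4, r4⟩ := abs_le.1 (m5 ha hb hb hc hd)
  obtain ⟨l5, r5⟩ := abs_le.1 (m5 ha hb hc hc hc)
  obtain ⟨l6, r6⟩ := abs_le.1 (m5 hb hb hb hb hd)
  obtain ⟨l7, r7⟩ := abs_le.1 (m5 hb hb hb hc hc)
  unfold v4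
  rw [abs_le]
  constructor <;> nlinarith

theorem v5_le : |v5 a b c d e| ≤ 3724 * H ^ 5 := by
  obtain ⟨l0, r0⟩ := abs_le.1 (m5 ha ha ha he he)
  obtain ⟨l1, r1⟩ := abs_le.1 (m5 ha ha hb hd he)
  obtain ⟨l2, r2⟩ := abs_le.1 (m5 ha ha hc hc he)
  obtain ⟨l3, r3⟩ := abs_le.1 (m5 ha ha hc hd hd)
  obtain ⟨l4, r4⟩ := abs_le.1 (m5 ha hb hb hc he)
  obtain ⟨l5, r5⟩ := abs_le.1 (m5 ha hb hb hd hd)
  obtain ⟨l6, r6⟩ := abs_le.1 (m5 ha hb hc hc hd)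
  obtain ⟨l7, r7⟩ := abs_le.1 (m5 ha hc hc hc hc)
  obtain ⟨l8, r8⟩ := abs_le.1 (m5 hb hb hb hb he)
  obtain ⟨l9, r9⟩ := abs_le.1 (m5 hb hb hb hc hd)
  obtain ⟨l10, r10⟩ := abs_le.1 (m5 hb hb hc hc hc)
  unfold v5
  rw [abs_le]
  constructor <;> nlinarith

end

end Pool.Agent.H454.HT
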