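import Pool.Agent.H454.HT.Alg

/-! A bound for the vectors in terms of the values of a quartic form and of its covariant. -/

set_option autoImplicit false

namespace Pool.Agent.H454.HT

section
variable {a b c d e p q H N : ℝ} (ha : |a| ≤ H) (hb : |b| ≤ H) (hc : |c| ≤ H) (hd : |d| ≤ H)
  (he : |e| ≤ H) (hp : |p| ≤ N) (hq : |q| ≤ N)

theorem mul_le2 {x y X Y : ℝ} (hx : |x| ≤ X) (hy : |y| ≤ Y) : |x * y| ≤ X * Y := by
  rw [abs_mul]
  exact mul_le_mul hx hy (abs_nonneg _) ((abs_nonneg x).trans hx)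

theorem quad_le {x y z X Y Z : ℝ} (hx : |x| ≤ X) (hy : |y| ≤ Y) (hz : |z| ≤ Z)
    (hp : |p| ≤ N) (hq : |q| ≤ N) :
    |x * p ^ 2 + y * (p * q) + z * q ^ 2| ≤ (X + Y + Z) * N ^ 2 := by
  have hN : 0 ≤ N := (abs_nonneg p).trans hp
  have h1 : |x * p ^ 2| ≤ X * N ^ 2 := by
    refine mul_le2 hx ?_
    rw [abs_pow]
    exact pow_le_pow_left₀ (abs_nonneg _) hp 2
  have h2 : |y * (p * q)| ≤ Y * N ^ 2 := by
    rw [sq]
    exact mul_le2 hy (mul_le2 hp hq)
  have h3 : |z * q ^ 2| ≤ Z * N ^ 2 := by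
    refine mul_le2 hz ?_
    rw [abs_pow]
    exact pow_le_pow_left₀ (abs_nonneg _) hq 2
  refine (abs_add_le _ _).trans ((add_le_add ((abs_add_le _ _).trans (add_le_add h1 h2)) h3).trans
    (le_of_eq (by ring)))

include ha hb hc hd he hp hq

theorem der_le {G : ℝ} (hH : 0 ≤ H)
    (hG : G = |g4 a b c d e p q| + 80 * H * |Fq a b c d e p q|) :
    3 * Fp a b c d p q ^ 2 ≤ N ^ 2 * G ∧ 3 * Fs b c d e p q ^ 2 ≤ N ^ 2 * G := by
  have hN : 0 ≤ N := (abs_nonneg p).trans hp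
  have h1 := hess_q a b c d e p q
  have h2 := hess_p a b c d e p q
  have e12 : ∀ x : ℝ, |x| ≤ H → |12 * x| ≤ 12 * H := fun x hx => by
    rw [abs_mul]; norm_num; exact hx
  have e6 : ∀ x : ℝ, |x| ≤ H → |6 * x| ≤ 6 * H := fun x hx => by
    rw [abs_mul]; norm_num; exact hx
  have e2 : ∀ x : ℝ, |x| ≤ H → |2 * x| ≤ 2 * H := fun x hx => by
    rw [abs_mul]; norm_num; exact hx
  have hpp : |Fpp a b c p q| ≤ 20 * H * N ^ 2 := by
    have := quad_le (e12 a ha) (e6 b hb) (e2 c hc) hp hq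
    unfold Fpp
    rw [show 12 * a * p ^ 2 + 6 * b * p * q + 2 * c * q ^ 2 =
      12 * a * p ^ 2 + 6 * b * (p * q) + 2 * c * q ^ 2 by ring]
    exact this.trans (le_of_eq (by ring))
  have hss : |Fss c d e p q| ≤ 20 * H * N ^ 2 := by
    have := quad_le (e2 c hc) (e6 d hd) (e12 e he) hp hq
    unfold Fss
    rw [show 2 * c * p ^ 2 + 6 * d * p * q + 12 * e * q ^ 2 =
      2 * c * p ^ 2 + 6 * d * (p * q) + 12 * e * q ^ 2 by ring]
    exact this.trans (le_of_eq (by ring))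
  have hq2 : q ^ 2 ≤ N ^ 2 := by
    rw [← sq_abs q]
    exact pow_le_pow_left₀ (abs_nonneg _) hq 2
  have hp2 : p ^ 2 ≤ N ^ 2 := by
    rw [← sq_abs p]
    exact pow_le_pow_left₀ (abs_nonneg _) hp 2
  have k1 : q ^ 2 * g4 a b c d e p q ≤ N ^ 2 * |g4 a b c d e p q| :=
    (mul_le_mul_of_nonneg_left (le_abs_self _) (sq_nonneg _)).trans
      (mul_le_mul_of_nonneg_right hq2 (abs_nonneg _))
  have k2 : p ^ 2 * g4 a b c d e p q ≤ N ^ 2 * |g4 a b c d e p q| :=
    (mul_le_mul_of_nonneg_left (le_abs_self _) (sq_nonneg _)).trans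
      (mul_le_mul_of_nonneg_right hp2 (abs_nonneg _))
  have k3 : Fq a b c d e p q * Fpp a b c p q ≤ |Fq a b c d e p q| * (20 * H * N ^ 2) := by
    refine (le_abs_self _).trans ?_
    rw [abs_mul]
    exact mul_le_mul_of_nonneg_left hpp (abs_nonneg _)
  have k4 : Fq a b c d e p q * Fss c d e p q ≤ |Fq a b c d e p q| * (20 * H * N ^ 2) := by
    refine (le_abs_self _).trans ?_
    rw [abs_mul]
    exact mul_le_mul_of_nonneg_left hss (abs_nonneg _)
  rw [hG]
  constructor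
  · nlinarith
  · nlinarith

/-- **the bound** -/
theorem vec_le (hH : 0 ≤ H) (hdis : 1 ≤ |dis a b c d e|) (hN : N = max |p| |q|) :
    N ^ 4 ≤ 180566 * H ^ 10 * (|g4 a b c d e p q| + 80 * H * |Fq a b c d e p q|) := by
  obtain ⟨G, hG⟩ : ∃ G, G = |g4 a b c d e p q| + 80 * H * |Fq a b c d e p q| := ⟨_, rfl⟩
  obtain ⟨h1, h2⟩ := der_le ha hb hc hd he hp hq hH hG
  rw [← hG]
  have hG0 : 0 ≤ G := by rw [hG]; positivity
  have hN0 : 0 ≤ N := (abs_nonneg p).trans hp
  obtain ⟨S, hS⟩ : ∃ S, S = Real.sqrt (G / 3) := ⟨_, rfl⟩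
  have hS0 : 0 ≤ S := by rw [hS]; exact Real.sqrt_nonneg _
  have hS2 : S ^ 2 = G / 3 := by rw [hS]; exact Real.sq_sqrt (by positivity)
  have hFp : |Fp a b c d p q| ≤ N * S := by
    refine abs_le_of_sq_le_sq ?_ (by positivity)
    rw [mul_pow, hS2]
    linarith
  have hFs : |Fs b c d e p q| ≤ N * S := by
    refine abs_le_of_sq_le_sq ?_ (by positivity)
    rw [mul_pow, hS2]
    linarith
  have key : 16 * N ^ 5 ≤ 11776 * H ^ 5 * N ^ 3 * S := by
    rcases le_total |q| |p| with h | h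
    · have hNp : N = |p| := by rw [hN]; exact max_eq_left h
      have e1 := elim_p a b c d e p q
      have e2 : 16 * N ^ 5 ≤ |16 * dis a b c d e * p ^ 5| := by
        rw [abs_mul, abs_mul, abs_pow, ← hNp, abs_of_pos (by norm_num : (0 : ℝ) < 16)]
        have : 0 ≤ N ^ 5 := by positivity
        nlinarith
      rw [e1] at e2
      have f1 := mul_le2 (quad_le (u0_le ha hb hc hd he) (u1_le ha hb hc hd he)
        (u2_le ha hb hc hd he) hp hq) hFp
      have f2 := mul_le2 (quad_le (u3_le ha hb hc hd he) (u4_le ha hb hc hd he)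
        (u5_le ha hb hc hd he) hp hq) hFs
      refine (e2.trans (abs_add_le _ _)).trans ((add_le_add f1 f2).trans (le_of_eq (by ring)))
    · have hNp : N = |q| := by rw [hN]; exact max_eq_right h
      have e1 := elim_q a b c d e p q
      have e2 : 16 * N ^ 5 ≤ |16 * dis a b c d e * q ^ 5| := by
        rw [abs_mul, abs_mul, abs_pow, ← hNp, abs_of_pos (by norm_num : (0 : ℝ) < 16)]
        have : 0 ≤ N ^ 5 := by positivity
        nlinarith
      rw [e1] at e2
      have f1 := mul_le2 (quad_le (v0_le ha hb hc hd he) (v1_le ha hb hc hd he)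
        (v2_le ha hb hc hd he) hp hq) hFp
      have f2 := mul_le2 (quad_le (v3_le ha hb hc hd he) (v4_le ha hb hc hd he)
        (v5_le ha hb hc hd he) hp hq) hFs
      refine (e2.trans (abs_add_le _ _)).trans ((add_le_add f1 f2).trans (le_of_eq (by ring)))
  rcases hN0.eq_or_lt with h0 | h0
  · rw [← h0]
    have : 0 ≤ 180566 * H ^ 10 * G := by positivity
    linarith [this]
  · have h3 : N ^ 2 ≤ 736 * H ^ 5 * S := by
      have h4 : (0 : ℝ) < 16 * N ^ 3 := by positivity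
      refine le_of_mul_le_mul_left ?_ h4
      calc 16 * N ^ 3 * N ^ 2 = 16 * N ^ 5 := by ring
        _ ≤ _ := key
        _ = _ := by ring
    calc N ^ 4 = (N ^ 2) ^ 2 := by ring
      _ ≤ (736 * H ^ 5 * S) ^ 2 := pow_le_pow_left₀ (by positivity) h3 2
      _ = 541696 * H ^ 10 * (G / 3) := by rw [mul_pow, hS2]; ring
      _ ≤ 180566 * H ^ 10 * G := by
          have : 0 ≤ H ^ 10 * G := by positivity
          nlinarith

end

end Pool.Agent.H454.HT
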