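import Pool.Agent.H454.HT.Alg
import Pool.Graph.R_seed8.W257.HL.Stm2

/-! The invariants of the reduced quartic form of an integral point. -/

set_option autoImplicit false

namespace Pool.Agent.H454.HT

open Pool.Agent.W257.HL

set_option maxHeartbeats 4000000 in
theorem iI_tf (A x y u₁ v₁ u₂ v₂ : ℤ) (h : u₁ * v₂ - u₂ * v₁ = 1) :
    iI (gq A x y u₁ v₁) (cb A x y u₁ v₁ u₂ v₂) (cc A x y u₁ v₁ u₂ v₂) (cb A x y u₂ v₂ u₁ v₁)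
      (gq A x y u₂ v₂) = -48 * A := by
  have e : iI (gq A x y u₁ v₁) (cb A x y u₁ v₁ u₂ v₂) (cc A x y u₁ v₁ u₂ v₂)
      (cb A x y u₂ v₂ u₁ v₁) (gq A x y u₂ v₂) = (u₁ * v₂ - u₂ * v₁) ^ 4 * (-48 * A) := by
    unfold iI gq cb cc
    ring
  rw [e, h]
  ring

set_option maxHeartbeats 4000000 in
theorem iJ_tf (A B x y u₁ v₁ u₂ v₂ : ℤ) (hE : y ^ 2 = x ^ 3 + A * x + B)
    (h : u₁ * v₂ - u₂ * v₁ = 1) :
    iJ (gq A x y u₁ v₁) (cb A x y u₁ v₁ u₂ v₂) (cc A x y u₁ v₁ u₂ v₂) (cb A x y u₂ v₂ u₁ v₁)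
      (gq A x y u₂ v₂) = -1728 * B := by
  have e : iJ (gq A x y u₁ v₁) (cb A x y u₁ v₁ u₂ v₂) (cc A x y u₁ v₁ u₂ v₂)
      (cb A x y u₂ v₂ u₁ v₁) (gq A x y u₂ v₂) =
      (u₁ * v₂ - u₂ * v₁) ^ 6 * (1728 * (x ^ 3 + A * x - y ^ 2)) := by
    unfold iJ gq cb cc
    ring
  rw [e, h]
  linear_combination (-1728) * hE

end Pool.Agent.H454.HT
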