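import Pool.Agent.H454.HT.Ineq
import Pool.Agent.H454.HT.Tf
import Pool.Graph.R_seed8.W257.HL.RED2
import Pool.Graph.R_seed8.Y674.HL.Sharp3

/-! The equivalence. -/

set_option autoImplicit false
set_option linter.unusedSectionVars false

namespace Pool.Agent.H454.HT

open Pool.Agent.W257.HL

/-- the height of a form -/
def ht (a b c d e : ℤ) : ℤ := max |a| (max |b| (max |c| (max |d| |e|)))

/-- the bound for the abscissas -/
def HLx (μ : ℝ) : Prop := ∃ K : ℝ, 0 < K ∧ ∀ A B x y : ℤ, 4 * A ^ 3 + 27 * B ^ 2 ≠ 0 →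
  y ^ 2 = x ^ 3 + A * x + B → ((|x| : ℤ) : ℝ) ≤ K * ((max |A| |B| : ℤ) : ℝ) ^ μ

/-- the bound for the equations `F = 1` -/
def ThueOne (τ : ℝ) : Prop := ∃ K : ℝ, 0 < K ∧ ∀ a b c d e p q : ℤ, dis a b c d e ≠ 0 →
  Fq a b c d e p q = 1 → ((max |p| |q| : ℤ) : ℝ) ≤ K * ((ht a b c d e : ℤ) : ℝ) ^ τ

/-- the bound for all equations -/
def ThueAll (τ σ : ℝ) : Prop := ∃ K : ℝ, 0 < K ∧ ∀ a b c d e p q m : ℤ, dis a b c d e ≠ 0 →
  m ≠ 0 → Fq a b c d e p q = m →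
    ((max |p| |q| : ℤ) : ℝ) ≤ K * ((ht a b c d e : ℤ) : ℝ) ^ τ * ((|m| : ℤ) : ℝ) ^ σ

theorem ht_le {a b c d e : ℤ} : |a| ≤ ht a b c d e ∧ |b| ≤ ht a b c d e ∧ |c| ≤ ht a b c d e ∧
    |d| ≤ ht a b c d e ∧ |e| ≤ ht a b c d e := by
  unfold ht
  refine ⟨by simp, by simp, by simp, by simp, by simp⟩

theorem ht_pos {a b c d e : ℤ} (h : dis a b c d e ≠ 0) : 1 ≤ ht a b c d e := by
  by_contra hcon
  have h0 : ht a b c d e ≤ 0 := by omega
  obtain ⟨h1, h2, h3, h4, h5⟩ := ht_le (a := a) (b := b) (c := c) (d := d) (e := e)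
  have z : ∀ x : ℤ, |x| ≤ ht a b c d e → x = 0 := fun x hx =>
    abs_eq_zero.1 (le_antisymm (hx.trans h0) (abs_nonneg x))
  apply h
  rw [z a h1, z b h2, z c h3, z d h4, z e h5]
  unfold dis
  ring

section
variable {a b c d e H : ℝ} (ha : |a| ≤ H) (hb : |b| ≤ H) (hc : |c| ≤ H) (hd : |d| ≤ H)
  (he : |e| ≤ H)
include ha hb hc hd he

theorem m2 {x y : ℝ} (hx : |x| ≤ H) (hy : |y| ≤ H) : |x * y| ≤ H ^ 2 := by
  rw [sq]
  exact mul_le2 hx hy

theorem iI_le : |iI a b c d e| ≤ 16 * H ^ 2 := by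
  obtain ⟨l1, r1⟩ := abs_le.1 (m2 ha hb hc hd he ha he)
  obtain ⟨l2, r2⟩ := abs_le.1 (m2 ha hb hc hd he hb hd)
  obtain ⟨l3, r3⟩ := abs_le.1 (m2 ha hb hc hd he hc hc)
  unfold iI
  rw [abs_le]
  constructor <;> nlinarith

theorem m3 {x y z : ℝ} (hx : |x| ≤ H) (hy : |y| ≤ H) (hz : |z| ≤ H) : |x * y * z| ≤ H ^ 3 := by
  rw [show H ^ 3 = H ^ 2 * H by ring]
  exact mul_le2 (m2 ha hb hc hd he hx hy) hz

theorem iJ_le : |iJ a b c d e| ≤ 137 * H ^ 3 := by
  obtain ⟨l1, r1⟩ := abs_le.1 (m3 ha hb hc hd he ha hc he)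
  obtain ⟨l2, r2⟩ := abs_le.1 (m3 ha hb hc hd he hb hc hd)
  obtain ⟨l3, r3⟩ := abs_le.1 (m3 ha hb hc hd he ha hd hd)
  obtain ⟨l4, r4⟩ := abs_le.1 (m3 ha hb hc hd he hb hb he)
  obtain ⟨l5, r5⟩ := abs_le.1 (m3 ha hb hc hd he hc hc hc)
  unfold iJ
  rw [abs_le]
  constructor <;> nlinarith

end

theorem cast_g4 (a b c d e p q : ℤ) :
    ((g4 a b c d e p q : ℤ) : ℝ) = g4 (a : ℝ) b c d e p q := by
  unfold g4; push_cast; ring

theorem cast_Fq (a b c d e p q : ℤ) :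
    ((Fq a b c d e p q : ℤ) : ℝ) = Fq (a : ℝ) b c d e p q := by
  unfold Fq; push_cast; ring

theorem cast_dis (a b c d e : ℤ) : ((dis a b c d e : ℤ) : ℝ) = dis (a : ℝ) b c d e := by
  unfold dis; push_cast; ring

theorem cast_iI (a b c d e : ℤ) : ((iI a b c d e : ℤ) : ℝ) = iI (a : ℝ) b c d e := by
  unfold iI; push_cast; ring

theorem cast_iJ (a b c d e : ℤ) : ((iJ a b c d e : ℤ) : ℝ) = iJ (a : ℝ) b c d e := by
  unfold iJ; push_cast; ring

/-- **from the curves to the forms** -/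
theorem thue_of_hl {μ : ℝ} (hμ : 1 ≤ μ) (h : HLx μ) : ThueAll ((10 + 3 * μ) / 4) (3 * μ / 4) := by
  obtain ⟨K, hK, hHL⟩ := h
  obtain ⟨K1, hK1⟩ : ∃ K1 : ℝ, K1 = K * 236736 ^ μ / 3 + 80 := ⟨_, rfl⟩
  have hK10 : 0 < K1 := by rw [hK1]; positivity
  refine ⟨(180566 * K1) ^ (1 / 4 : ℝ), by positivity, ?_⟩
  intro a b c d e p q m hdis hm hF
  obtain ⟨H, hH⟩ : ∃ H : ℝ, H = ((ht a b c d e : ℤ) : ℝ) := ⟨_, rfl⟩
  obtain ⟨M, hM⟩ : ∃ M : ℝ, M = ((|m| : ℤ) : ℝ) := ⟨_, rfl⟩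
  have hH1 : 1 ≤ H := by rw [hH]; exact_mod_cast ht_pos hdis
  have hM1 : 1 ≤ M := by rw [hM]; exact_mod_cast Int.one_le_abs hm
  have hHM : 1 ≤ H * M := one_le_mul_of_one_le_of_one_le hH1 hM1
  obtain ⟨h1, h2, h3, h4, h5⟩ := ht_le (a := a) (b := b) (c := c) (d := d) (e := e)
  have cst : ∀ x : ℤ, |x| ≤ ht a b c d e → |(x : ℝ)| ≤ H := fun x hx => by
    rw [hH]; exact_mod_cast hx
  have ka := cst a h1
  have kb := cst b h2
  have kc := cst c h3
  have kd := cst d h4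
  have ke := cst e h5
  -- the point
  have hsyz := syz a b c d e p q
  rw [hF] at hsyz
  have hE : (27 * g6 a b c d e p q) ^ 2 = (3 * g4 a b c d e p q) ^ 3 +
      (-432 * iI a b c d e * m ^ 2) * (3 * g4 a b c d e p q) + (-1728 * iJ a b c d e * m ^ 3) := by
    linear_combination 27 * hsyz
  have hns : 4 * (-432 * iI a b c d e * m ^ 2) ^ 3 + 27 * (-1728 * iJ a b c d e * m ^ 3) ^ 2 ≠ 0 := by
    have e1 : 4 * (-432 * iI a b c d e * m ^ 2) ^ 3 + 27 * (-1728 * iJ a b c d e * m ^ 3) ^ 2 =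
        -2176782336 * dis a b c d e * m ^ 6 := by
      have := dis_eq a b c d e
      linear_combination (80621568 * m ^ 6) * this
    rw [e1]
    exact mul_ne_zero (mul_ne_zero (by norm_num) hdis) (pow_ne_zero 6 hm)
  have hb := hHL _ _ _ _ hns hE
  -- the heights
  have hmM : |(m : ℝ)| = M := by rw [hM]; push_cast; rfl
  have hA : |((-432 * iI a b c d e * m ^ 2 : ℤ) : ℝ)| ≤ 236736 * (H * M) ^ 3 := by
    have e1 : ((-432 * iI a b c d e * m ^ 2 : ℤ) : ℝ) = -432 * iI (a : ℝ) b c d e * (m : ℝ) ^ 2 := by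
      push_cast
      rw [cast_iI]
    rw [e1, abs_mul, abs_mul, abs_pow, hmM]
    have e2 : |(-432 : ℝ)| = 432 := by norm_num
    rw [e2]
    have e3 := iI_le ka kb kc kd ke
    calc 432 * |iI (a : ℝ) b c d e| * M ^ 2 ≤ 432 * (16 * H ^ 2) * M ^ 2 := by gcongr
      _ = 6912 * (H * M) ^ 2 := by ring
      _ ≤ 236736 * (H * M) ^ 3 := by
          have : (H * M) ^ 2 ≤ (H * M) ^ 3 := pow_le_pow_right₀ hHM (by norm_num)
          have : 0 ≤ (H * M) ^ 3 := by positivity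
          linarith
  have hB : |((-1728 * iJ a b c d e * m ^ 3 : ℤ) : ℝ)| ≤ 236736 * (H * M) ^ 3 := by
    have e1 : ((-1728 * iJ a b c d e * m ^ 3 : ℤ) : ℝ) = -1728 * iJ (a : ℝ) b c d e * (m : ℝ) ^ 3 := by
      push_cast
      rw [cast_iJ]
    rw [e1, abs_mul, abs_mul, abs_pow, hmM]
    have e2 : |(-1728 : ℝ)| = 1728 := by norm_num
    rw [e2]
    have e3 := iJ_le ka kb kc kd ke
    calc 1728 * |iJ (a : ℝ) b c d e| * M ^ 3 ≤ 1728 * (137 * H ^ 3) * M ^ 3 := by gcongr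
      _ = 236736 * (H * M) ^ 3 := by ring
  have hmax : ((max |(-432 * iI a b c d e * m ^ 2)| |(-1728 * iJ a b c d e * m ^ 3)| : ℤ) : ℝ) ≤
      236736 * (H * M) ^ 3 := by
    rw [Int.cast_max, Int.cast_abs, Int.cast_abs]
    exact max_le hA hB
  have hX : 3 * |g4 (a : ℝ) b c d e p q| ≤ K * 236736 ^ μ * (H * M) ^ (3 * μ) := by
    have e1 : ((|3 * g4 a b c d e p q| : ℤ) : ℝ) = 3 * |g4 (a : ℝ) b c d e p q| := by
      rw [Int.cast_abs, Int.cast_mul, cast_g4, abs_mul]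
      norm_num
    rw [← e1]
    refine hb.trans ?_
    have e2 : ((max |(-432 * iI a b c d e * m ^ 2)| |(-1728 * iJ a b c d e * m ^ 3)| : ℤ) : ℝ) ^ μ ≤
        (236736 * (H * M) ^ 3) ^ μ := Real.rpow_le_rpow (by positivity) hmax (by linarith)
    have e3 : (236736 * (H * M) ^ 3) ^ μ = 236736 ^ μ * (H * M) ^ (3 * μ) := by
      rw [Real.mul_rpow (by norm_num) (by positivity), Real.rpow_mul (by positivity)]
      norm_num
    rw [e3] at e2
    calc _ ≤ K * (236736 ^ μ * (H * M) ^ (3 * μ)) := mul_le_mul_of_nonneg_left e2 hK.le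
      _ = _ := by ring
  -- the bound for the vector
  obtain ⟨N, hN⟩ : ∃ N : ℝ, N = max |(p : ℝ)| |(q : ℝ)| := ⟨_, rfl⟩
  have hNc : ((max |p| |q| : ℤ) : ℝ) = N := by
    rw [hN, Int.cast_max, Int.cast_abs, Int.cast_abs]
  have hdis1 : 1 ≤ |dis (a : ℝ) b c d e| := by
    rw [← cast_dis, ← Int.cast_abs]
    exact_mod_cast Int.one_le_abs hdis
  have hv := vec_le ka kb kc kd ke (by rw [hN]; exact le_max_left _ _)
    (by rw [hN]; exact le_max_right _ _) (by linarith) hdis1 hN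
  have hFm : Fq (a : ℝ) b c d e p q = m := by rw [← cast_Fq, hF]
  rw [hFm, hmM] at hv
  have hHM0 : 0 < H * M := by linarith
  have hpow : H * M ≤ (H * M) ^ (3 * μ) := by
    calc H * M = (H * M) ^ (1 : ℝ) := (Real.rpow_one _).symm
      _ ≤ _ := Real.rpow_le_rpow_of_exponent_le hHM (by linarith)
  have hv2 : N ^ 4 ≤ 180566 * K1 * (H ^ (10 + 3 * μ) * M ^ (3 * μ)) := by
    have e1 : |g4 (a : ℝ) b c d e p q| + 80 * H * M ≤ K1 * (H * M) ^ (3 * μ) := by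
      rw [hK1]
      have e2 : 0 ≤ (H * M) ^ (3 * μ) := by positivity
      nlinarith
    refine hv.trans ?_
    have e3 : H ^ (10 + 3 * μ) = H ^ (10 : ℕ) * H ^ (3 * μ) := by
      rw [Real.rpow_add (by linarith), ← Real.rpow_natCast H 10]
      norm_num
    rw [e3]
    have e4 : (H * M) ^ (3 * μ) = H ^ (3 * μ) * M ^ (3 * μ) :=
      Real.mul_rpow (by linarith) (by linarith)
    rw [e4] at e1
    have e5 : (0 : ℝ) ≤ 180566 * H ^ 10 := by positivity
    calc _ ≤ 180566 * H ^ 10 * (K1 * (H ^ (3 * μ) * M ^ (3 * μ))) :=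
          mul_le_mul_of_nonneg_left e1 e5
      _ = _ := by ring
  rw [hNc]
  have hN0 : 0 ≤ N := by rw [hN]; positivity
  have e1 : N = (N ^ 4) ^ (1 / 4 : ℝ) := by
    rw [← Real.rpow_natCast, ← Real.rpow_mul hN0]
    norm_num
  rw [e1]
  refine (Real.rpow_le_rpow (by positivity) hv2 (by norm_num)).trans (le_of_eq ?_)
  rw [Real.mul_rpow (x := 180566 * K1) (by positivity) (by positivity),
    Real.mul_rpow (x := H ^ (10 + 3 * μ)) (by positivity) (by positivity),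
    ← Real.rpow_mul (by linarith), ← Real.rpow_mul (by linarith), ← hH, ← hM]
  rw [show (10 + 3 * μ) * (1 / 4) = (10 + 3 * μ) / 4 by ring,
    show 3 * μ * (1 / 4) = 3 * μ / 4 by ring]
  ring

theorem max_nat (A B : ℤ) : ((max |A| |B| : ℤ) : ℝ) = ((max A.natAbs B.natAbs : ℕ) : ℝ) := by
  rw [Nat.cast_max, Nat.cast_natAbs, Nat.cast_natAbs, Int.cast_max]

/-- **from the forms to the curves** -/
theorem hl_of_thue {τ : ℝ} (hτ : 0 < τ) (h : ThueOne τ) : HLx (max 2 (1 + 8 * τ)) := by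
  obtain ⟨K, hK, hT⟩ := h
  obtain ⟨C, hC⟩ := t_RED2
  obtain ⟨C2, hC2⟩ := Pool.Agent.Y674.HL.part1 ℚ
  obtain ⟨μ, hμ⟩ : ∃ μ : ℝ, μ = max 2 (1 + 8 * τ) := ⟨_, rfl⟩
  obtain ⟨D, hD⟩ : ∃ D : ℝ, D = (C : ℝ) + 1 := ⟨_, rfl⟩
  have hD0 : 0 < D := by rw [hD]; positivity
  have hμ2 : 2 ≤ μ := by rw [hμ]; exact le_max_left _ _
  have hμ8 : 1 + 8 * τ ≤ μ := by rw [hμ]; exact le_max_right _ _
  rw [← hμ]
  refine ⟨2 + |C2| + D * (K * D ^ τ) ^ 4, by positivity, ?_⟩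
  intro A B x y hns hE
  rw [max_nat]
  obtain ⟨H, hH⟩ : ∃ H : ℕ, H = max A.natAbs B.natAbs := ⟨_, rfl⟩
  have hH1 : 1 ≤ H := by
    by_contra hcon
    have h0 : H = 0 := by omega
    rw [hH] at h0
    have hA0 : A.natAbs = 0 := by
      have := le_max_left A.natAbs B.natAbs
      omega
    have hB0 : B.natAbs = 0 := by
      have := le_max_right A.natAbs B.natAbs
      omega
    apply hns
    rw [Int.natAbs_eq_zero.1 hA0, Int.natAbs_eq_zero.1 hB0]
    norm_num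
  rw [← hH]
  have hHR : (1 : ℝ) ≤ H := by exact_mod_cast hH1
  have hA : |A| ≤ (H : ℤ) := by
    rw [Int.abs_eq_natAbs, hH]
    exact_mod_cast le_max_left _ _
  have hB : |B| ≤ (H : ℤ) := by
    rw [Int.abs_eq_natAbs, hH]
    exact_mod_cast le_max_right _ _
  have hsum : ∀ t : ℝ, t ≤ 2 * (H : ℝ) ^ μ ∨ t ≤ |C2| * (H : ℝ) ^ μ ∨
      t ≤ D * (K * D ^ τ) ^ 4 * (H : ℝ) ^ μ →
      t ≤ (2 + |C2| + D * (K * D ^ τ) ^ 4) * (H : ℝ) ^ μ := by
    intro t ht
    have e1 : 0 ≤ (H : ℝ) ^ μ := by positivity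
    have e2 : 0 ≤ |C2| * (H : ℝ) ^ μ := by positivity
    have e3 : 0 ≤ D * (K * D ^ τ) ^ 4 * (H : ℝ) ^ μ := by positivity
    have e4 : (2 + |C2| + D * (K * D ^ τ) ^ 4) * (H : ℝ) ^ μ = 2 * (H : ℝ) ^ μ +
      |C2| * (H : ℝ) ^ μ + D * (K * D ^ τ) ^ 4 * (H : ℝ) ^ μ := by ring
    rw [e4]
    rcases ht with ht | ht | ht <;> linarith
  apply hsum
  have hHμ : (H : ℝ) ≤ (H : ℝ) ^ μ := by
    calc (H : ℝ) = (H : ℝ) ^ (1 : ℝ) := (Real.rpow_one _).symm
      _ ≤ _ := Real.rpow_le_rpow_of_exponent_le hHR (by linarith)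
  by_cases hxH : x < H
  · -- small abscissas
    left
    have h1 : |x| ≤ 2 * (H : ℤ) := by
      rw [abs_le]
      refine ⟨?_, by omega⟩
      by_contra hcon
      push Not at hcon
      obtain ⟨t, ht⟩ : ∃ t : ℤ, t = -x := ⟨_, rfl⟩
      have ht2 : 2 * (H : ℤ) < t := by omega
      have hx : x = -t := by omega
      rw [hx] at hE
      have h2 : 0 ≤ (-t) ^ 3 + A * (-t) + B := by rw [← hE]; exact sq_nonneg y
      obtain ⟨a1, a2⟩ := abs_le.1 hA
      obtain ⟨b1, b2⟩ := abs_le.1 hB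
      have hHz : (1 : ℤ) ≤ H := by exact_mod_cast hH1
      have h3 : t ^ 3 ≤ H * t + H := by nlinarith
      have h4 : H * t + H ≤ 2 * (H * t) := by nlinarith
      have h5 : 2 * ((H : ℤ) * t) < t ^ 2 := by nlinarith
      nlinarith
    have h2 : ((|x| : ℤ) : ℝ) ≤ 2 * (H : ℝ) := by exact_mod_cast h1
    exact h2.trans (mul_le_mul_of_nonneg_left hHμ (by norm_num))
  · push Not at hxH
    have hE' : |y| ^ 2 = x ^ 3 + A * x + B := by rw [sq_abs]; exact hE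
    have hx0 : 0 ≤ x := by
      have : (0 : ℤ) ≤ H := by exact_mod_cast (Nat.zero_le H)
      omega
    by_cases hroot : ∀ u v : ℤ, v ≠ 0 → gq A x |y| u v ≠ 0
    · right; right
      obtain ⟨u₁, v₁, u₂, v₂, hdet, c1, c2, c3, c4, c5, hx, -⟩ :=
        hC A B x |y| H hH hH1 hE' (abs_nonneg y) hxH hroot
      have hI := iI_tf A x |y| u₁ v₁ u₂ v₂ hdet
      have hJ := iJ_tf A B x |y| u₁ v₁ u₂ v₂ hE' hdet
      have hsub := gq_subst A x |y| u₁ v₁ u₂ v₂ v₂ (-v₁)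
      revert c1 c2 c3 c4 c5 hI hJ hsub
      generalize gq A x |y| u₁ v₁ = a
      generalize cb A x |y| u₁ v₁ u₂ v₂ = b
      generalize cc A x |y| u₁ v₁ u₂ v₂ = c
      generalize cb A x |y| u₂ v₂ u₁ v₁ = d
      generalize gq A x |y| u₂ v₂ = e
      intro c1 c2 c3 c4 c5 hI hJ hsub
      have hdis : dis a b c d e ≠ 0 := by
        intro h0
        have := dis_eq a b c d e
        rw [h0, hI, hJ] at this
        apply hns
        have e1 : (110592 : ℤ) * (4 * A ^ 3 + 27 * B ^ 2) = 0 := by linear_combination this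
        exact (mul_eq_zero.1 e1).resolve_left (by norm_num)
      have hF : Fq a b c d e v₂ (-v₁) = 1 := by
        unfold Fq
        have e1 : gq A x |y| (u₁ * v₂ + u₂ * -v₁) (v₁ * v₂ + v₂ * -v₁) = 1 := by
          have e2 : u₁ * v₂ + u₂ * -v₁ = 1 := by linear_combination hdet
          have e3 : v₁ * v₂ + v₂ * -v₁ = 0 := by ring
          rw [e2, e3]
          unfold gq
          ring
        rw [← e1, hsub]
      have hTT := hT a b c d e v₂ (-v₁) hdis hF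
      have hht : ((ht a b c d e : ℤ) : ℝ) ≤ D * (H : ℝ) ^ 2 := by
        have e1 : ht a b c d e ≤ ((C * H ^ 2 : ℕ) : ℤ) := by
          unfold ht
          simp only [Int.abs_eq_natAbs]
          refine max_le ?_ (max_le ?_ (max_le ?_ (max_le ?_ ?_)))
          · exact_mod_cast c1
          · exact_mod_cast c2
          · exact_mod_cast c3
          · exact_mod_cast c4
          · exact_mod_cast c5
        have e2 : ((ht a b c d e : ℤ) : ℝ) ≤ (((C * H ^ 2 : ℕ) : ℤ) : ℝ) := by exact_mod_cast e1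
        refine e2.trans ?_
        rw [hD]
        push_cast
        have : (0 : ℝ) ≤ (H : ℝ) ^ 2 := by positivity
        linarith
      obtain ⟨V, hV⟩ : ∃ V : ℝ, V = ((max v₁.natAbs v₂.natAbs : ℕ) : ℝ) := ⟨_, rfl⟩
      have hVe : ((max |v₂| |-v₁| : ℤ) : ℝ) = V := by
        rw [abs_neg, max_comm, max_nat, hV]
      rw [hVe] at hTT
      have hV0 : 0 ≤ V := by rw [hV]; positivity
      have hV4 : V ^ 4 ≤ (K * D ^ τ) ^ 4 * (H : ℝ) ^ (8 * τ) := by
        have e0 : (0 : ℝ) ≤ ((ht a b c d e : ℤ) : ℝ) := by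
          have := ht_pos hdis
          have : (0 : ℤ) ≤ ht a b c d e := by omega
          exact_mod_cast this
        have e1 : V ≤ K * (D * (H : ℝ) ^ 2) ^ τ :=
          hTT.trans (mul_le_mul_of_nonneg_left (Real.rpow_le_rpow e0 hht hτ.le) hK.le)
        have e2 : K * (D * (H : ℝ) ^ 2) ^ τ = K * D ^ τ * (H : ℝ) ^ (2 * τ) := by
          rw [Real.mul_rpow hD0.le (by positivity), Real.rpow_mul (by positivity)]
          norm_num
          ring
        rw [e2] at e1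
        refine (pow_le_pow_left₀ hV0 e1 4).trans (le_of_eq ?_)
        rw [mul_pow, ← Real.rpow_natCast ((H : ℝ) ^ (2 * τ)) 4, ← Real.rpow_mul (by positivity)]
        congr 2
        push_cast
        ring
      have hxR : ((|x| : ℤ) : ℝ) ≤ D * H * V ^ 4 := by
        have e1 : ((x.natAbs : ℕ) : ℝ) ≤ ((C * H * (max v₁.natAbs v₂.natAbs) ^ 4 : ℕ) : ℝ) := by
          exact_mod_cast hx
        have e2 : ((|x| : ℤ) : ℝ) = ((x.natAbs : ℕ) : ℝ) := by
          rw [Nat.cast_natAbs]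
        rw [e2]
        refine e1.trans ?_
        rw [hV, hD]
        push_cast
        have e3 : (0 : ℝ) ≤ (H : ℝ) * (max (v₁.natAbs : ℝ) (v₂.natAbs : ℝ)) ^ 4 := by positivity
        nlinarith
      refine hxR.trans ?_
      have e1 : (0 : ℝ) ≤ D * H := by positivity
      calc D * H * V ^ 4 ≤ D * H * ((K * D ^ τ) ^ 4 * (H : ℝ) ^ (8 * τ)) :=
            mul_le_mul_of_nonneg_left hV4 e1
        _ = D * (K * D ^ τ) ^ 4 * (H : ℝ) ^ (1 + 8 * τ) := by
            rw [Real.rpow_add (by linarith), Real.rpow_one]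
            ring
        _ ≤ _ := by
            refine mul_le_mul_of_nonneg_left ?_ (by positivity)
            exact Real.rpow_le_rpow_of_exponent_le hHR hμ8
    · right; left
      push Not at hroot
      obtain ⟨u, v, hv, hg⟩ := hroot
      obtain ⟨l, hl⟩ : ∃ l : ℚ, l = -(u : ℚ) / v := ⟨_, rfl⟩
      have hvQ : (v : ℚ) ≠ 0 := by exact_mod_cast hv
      have hgQ : l ^ 4 - 6 * x * l ^ 2 - 8 * ((|y| : ℤ) : ℚ) * l - (3 * x ^ 2 + 4 * A) = 0 := by
        have e1 : ((gq A x |y| u v : ℤ) : ℚ) = 0 := by exact_mod_cast hg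
        unfold gq at e1
        push_cast at e1
        rw [hl]
        push_cast
        field_simp
        linear_combination e1
      have hEQ : ((|y| : ℤ) : ℚ) ^ 2 = (x : ℚ) ^ 3 + A * x + B := by exact_mod_cast hE'
      obtain ⟨h1, -⟩ := hC2 A B x |y| hns hE' ⟨(l ^ 2 - x) / 2, l * ((l ^ 2 - x) / 2 - x) -
        ((|y| : ℤ) : ℚ), l, by
          linear_combination (l ^ 2 / 8 - 3 * x / 8) * hgQ + hEQ, by
          linear_combination (1 / 4 : ℚ) * hgQ, by ring, by ring⟩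
      rw [max_nat, ← hH] at h1
      rw [Int.cast_abs]
      refine h1.trans ?_
      have e1 : (H : ℝ) ^ 2 ≤ (H : ℝ) ^ μ := by
        rw [← Real.rpow_natCast]
        exact Real.rpow_le_rpow_of_exponent_le hHR (by exact_mod_cast hμ2)
      have e2 : (0 : ℝ) ≤ (H : ℝ) ^ 2 := by positivity
      calc C2 * (H : ℝ) ^ 2 ≤ |C2| * (H : ℝ) ^ 2 :=
            mul_le_mul_of_nonneg_right (le_abs_self _) e2
        _ ≤ _ := mul_le_mul_of_nonneg_left e1 (abs_nonneg _)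

end Pool.Agent.H454.HT
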